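import Pool.Agent.H23.RM.Cont
import Pool.Agent.H23.RM.FT
import Pool.Graph.R_pool_sql_team_seeded_3997aac3.Q233.GLV.GTop2

/-!
# The plateau of the spectral form factor of random and of generic metrics on a closed surface

Let `(M, g)` be a closed surface with a continuous Riemannian metric and isothermal charts (for
instance a smooth metric of negative curvature). For a continuous function `φ` on `M` consider the
metric `exp φ · g`, its Laplace eigenvalues `lam 0 ≤ lam 1 ≤ ...` and its unfolded levels
`x j = Area · lam j / (4 π)`. For a window `p` of `N` different indices with positive levels the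
spectral form factor is

  `K (t) = |∑ l, exp (2 π i t x (p l))| ² / N`.

Let `W N m` be the number of the pairs of words of the length `m` in `N` letters which contain each
letter equally often, divided by `N ^ m`; then `W N 1 = 1`, `W N m ≤ m!` and `W N m → m!`, `N → ∞`.

* Random metrics. Let `P` be a Borel probability measure on `C(M)` which is quasi-invariant under the
  translations by the multiples of the functions of a set `S` with dense linear span (for instance
  a nondegenerate Gaussian measure). For `t → ∞` the mean of `K (t) ^ m` over the random metric tends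
  to `W N m`, and the phases `t x (p l)`, modulo one, are asymptotically independent and uniformly
  distributed. So the mean form factor tends to the plateau `1`, but it is not self-averaging: for
  large `N` its late moments are those of the exponential law.
* Almost surely, and also for generic metrics `exp (ι φ) · g` (in the sense of Baire, for any Baire
  space `B` with a continuous linear map `ι` to `C(M)` with dense range), the same holds for the means
  over time windows `(a, a + T)`, `T → ∞`, uniformly in `a`, for all `N`, `m` and all windows `p`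
  simultaneously.

Idea of the proof. The joint law of `N` levels is absolutely continuous, so its characteristic
function tends to zero at infinity (the lemma of Riemann and Lebesgue); the levels of a generic metric
are linearly independent over the rational numbers.
-/

set_option autoImplicit false

open Set Filter Topology MeasureTheory
open Pool.Agent.Y262.QE
open Pool.Agent.H23.FF

noncomputable section

namespace Pool.Agent.Results.MP_a825e8_mp.FormFactor

/-- `u 0, u 1, ...` is an orthonormal basis of `L² (μ)` which consists of eigenfunctions of the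
Laplacian of the surface `D` with the area `μ`; the eigenvalues `lam 0 ≤ lam 1 ≤ ...` are ordered -/
structure IsEigenbasis {M : Type} [MeasurableSpace M] (D : Data M) (μ : Measure M)
    (u : ℕ → M → ℝ) (lam : ℕ → ℝ) : Prop where
  eig : ∀ j, D.IsEig μ (lam j) (u j)
  mono : Monotone lam
  orth : ∀ i j, ∫ x, u i x * u j x ∂μ = if i = j then 1 else 0
  total : ∀ f : M → ℝ, MemLp f 2 μ → (∀ j, ∫ x, f x * u j x ∂μ = 0) → f =ᵐ[μ] 0

/-- the surface with the metric `exp φ · g` -/
def surf {M : Type} [TopologicalSpace M] (D : Data M) (φ : C(M, ℝ)) : Data M :=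
  D.conf fun x => Real.exp (φ x)

/-- the area of the metric `exp φ · g` -/
def area {M : Type} [TopologicalSpace M] [MeasurableSpace M] (μ : Measure M) (φ : C(M, ℝ)) :
    Measure M :=
  wm μ fun x => Real.exp (φ x)

/-- `x 0 ≤ x 1 ≤ ...` are the unfolded levels `Area · lam j / (4 π)` of the metric `exp φ · g` -/
def IsUnfolded {M : Type} [TopologicalSpace M] [MeasurableSpace M] (D : Data M) (μ : Measure M)
    (φ : C(M, ℝ)) (x : ℕ → ℝ) : Prop :=
  ∃ (u : ℕ → M → ℝ) (lam : ℕ → ℝ), IsEigenbasis (surf D φ) (area μ φ) u lam ∧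
    ∀ j, x j = (area μ φ).real univ * lam j / (4 * Real.pi)

/-- all the charts of the surface are isothermal: in the chart `i` the metric at `z` is
`‖D.A i z v‖ ²`, and it is a multiple of the flat metric `‖v‖ ²` -/
def Isothermal {M : Type} (D : Data M) : Prop :=
  ∀ i, ∀ z ∈ D.T i, ∃ c : ℝ, ∀ v, ‖D.A i z v‖ = c * ‖v‖

/-- the spectral form factor `|∑ l, exp (2 π i t y l)| ² / N` of the levels `y l` -/
def formFactor {N : ℕ} (y : Fin N → ℝ) (t : ℝ) : ℝ :=
  ‖∑ l, Complex.exp (2 * Real.pi * Complex.I * ((t * y l : ℝ) : ℂ))‖ ^ 2 / N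

/-- the positions `t y l`, modulo one -/
def phases {N : ℕ} (y : Fin N → ℝ) (t : ℝ) : UnitAddTorus (Fin N) := fun l => (t * y l : ℝ)

/-- the number of the pairs of words of the length `m` in `N` letters which contain each letter
equally often, divided by `N ^ m` -/
def plateau (N m : ℕ) : ℝ :=
  ((Finset.univ.filter fun w : (Fin m → Fin N) × (Fin m → Fin N) =>
    ∀ j, (Finset.univ.filter fun i => w.1 i = j).card =
      (Finset.univ.filter fun i => w.2 i = j).card).card : ℝ) / (N : ℝ) ^ m

/-- the mean of `F` over the time window `(a, a + T)` -/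
def windowMean (F : ℝ → ℂ) (a T : ℝ) : ℂ := (T : ℂ)⁻¹ * ∫ t in a..(a + T), F t

/-- the means of `F` over the time windows `(a, a + T)` tend to `c` for `T → ∞`, uniformly in the
position `a ∈ ℝ` of the window -/
def HasTimeMean (F : ℝ → ℂ) (c : ℂ) : Prop :=
  ∀ ε > 0, ∃ T₀ > 0, ∀ T ≥ T₀, ∀ a : ℝ, ‖windowMean F a T - c‖ < ε

/-- all the windows of levels have the late time statistics of independent uniform phases, in the
mean over the time -/
def TimeStatistics (x : ℕ → ℝ) : Prop :=
  ∀ (N : ℕ) (p : Fin N → ℕ), Function.Injective p → (∀ l, 0 < x (p l)) →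
    (∀ f : C(UnitAddTorus (Fin N), ℂ), HasTimeMean (fun t => f (phases (fun l => x (p l)) t))
      (∫ z, f z ∂(Measure.pi fun _ => AddCircle.haarAddCircle))) ∧
    ∀ m : ℕ, HasTimeMean (fun t => ((formFactor (fun l => x (p l)) t ^ m : ℝ) : ℂ)) (plateau N m)

lemma hasTimeMean_of {F : ℝ → ℂ} {c : ℂ} (h : Tendsto (fun q : ℝ × ℝ => timeMean F q.1 q.2)
    (⊤ ×ˢ atTop) (𝓝 c)) : HasTimeMean F c := by
  intro ε hε
  have h1 := Metric.tendsto_nhds.1 h ε hε
  rw [Filter.eventually_iff, Filter.mem_prod_iff] at h1
  obtain ⟨t₁, ht₁, t₂, ht₂, hsub⟩ := h1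
  rw [Filter.mem_top] at ht₁
  obtain ⟨T₀, hT₀⟩ := Filter.mem_atTop_sets.1 ht₂
  refine ⟨max T₀ 1, by positivity, fun T hT a => ?_⟩
  have h2 := hsub (Set.mk_mem_prod (ht₁ ▸ mem_univ a) (hT₀ T ((le_max_left _ _).trans hT)))
  rw [mem_ofPred_eq, dist_eq_norm] at h2
  unfold windowMean
  unfold timeMean at h2
  rw [Complex.real_smul, Complex.ofReal_inv] at h2
  exact h2

/-- the resonant vectors -/
def res {N : ℕ} (k : Fin N → ℚ) : Submodule ℝ (Fin N → ℝ) :=
  LinearMap.ker (∑ j, (k j : ℝ) • (LinearMap.proj j : (Fin N → ℝ) →ₗ[ℝ] ℝ))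

lemma mem_res {N : ℕ} (k : Fin N → ℚ) (y : Fin N → ℝ) : y ∈ res k ↔ ∑ j, k j • y j = 0 := by
  unfold res
  rw [LinearMap.mem_ker]
  simp only [LinearMap.sum_apply, LinearMap.smul_apply, LinearMap.proj_apply, smul_eq_mul,
    Rat.smul_def]

lemma res_ne {N : ℕ} {k : Fin N → ℚ} (hk : k ≠ 0) : res k ≠ ⊤ := by
  intro h
  refine hk (funext fun j => ?_)
  have h1 : (Pi.single j 1 : Fin N → ℝ) ∈ res k := by
    rw [h]
    exact Submodule.mem_top
  rw [mem_res, Finset.sum_eq_single j (fun l _ hl => by rw [Pi.single_eq_of_ne hl, smul_zero])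
    (fun h => absurd (Finset.mem_univ _) h), Pi.single_eq_same, Rat.smul_def, mul_one] at h1
  exact_mod_cast h1

lemma res_null {N : ℕ} {k : Fin N → ℚ} (hk : k ≠ 0) : volume (res k : Set (Fin N → ℝ)) = 0 :=
  Measure.addHaar_submodule volume _ (res_ne hk)

lemma res_meagre {N : ℕ} {k : Fin N → ℚ} (hk : k ≠ 0) : IsMeagre (res k : Set (Fin N → ℝ)) := by
  refine IsNowhereDense.isMeagre ?_
  rw [(Submodule.closed_of_finiteDimensional (res k)).isNowhereDense_iff]
  exact Measure.interior_eq_empty_of_null (res_null hk)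

lemma timeStatistics_of {x : ℕ → ℝ} (h : ∀ (N : ℕ) (k : Fin N → ℚ), k ≠ 0 →
    ∀ (p : Fin N → ℕ), Function.Injective p → (∀ l, 0 < x (p l)) →
      (fun l => x (p l)) ∉ (res k : Set (Fin N → ℝ))) : TimeStatistics x := by
  intro N p hp hl
  have h1 : LinearIndependent ℚ fun l => x (p l) := by
    rw [Fintype.linearIndependent_iff]
    intro k hk
    by_contra hne
    have hk0 : k ≠ 0 := fun h0 => hne (fun j => by rw [h0]; rfl)
    exact h N k hk0 p hp hl ((mem_res k _).2 hk)
  refine ⟨fun f => ?_, fun m => ?_⟩
  · exact hasTimeMean_of (time_torus h1 f)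
  · refine hasTimeMean_of ?_
    have h2 := (Complex.continuous_ofReal.tendsto _).comp (time_moments h1 m)
    refine h2.congr fun q => ?_
    simp only [Function.comp, timeMean, formFactor, ph]
    rw [intervalIntegral.integral_ofReal, Complex.real_smul, smul_eq_mul, Complex.ofReal_mul]

theorem result (M : Type) [MetricSpace M] [CompactSpace M] [MeasurableSpace M] [BorelSpace M]
    [Nonempty M] (μ : Measure M) (D : Data M) (hD : D.IsSurf μ) (hiso : Isothermal D) :
    (∀ φ : C(M, ℝ), (surf D φ).IsSurf (area μ φ) ∧ ∃ x, IsUnfolded D μ φ x) ∧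
    (∀ N > 0, plateau N 1 = 1) ∧ (∀ N m, plateau N m ≤ m.factorial) ∧
    (∀ m, Tendsto (fun N => plateau N m) atTop (𝓝 (m.factorial : ℝ))) ∧
    (∀ [MeasurableSpace C(M, ℝ)] [BorelSpace C(M, ℝ)] (P : Measure C(M, ℝ)) [IsProbabilityMeasure P]
      (S : Set C(M, ℝ)), Dense (Submodule.span ℝ S : Set C(M, ℝ)) →
      (∀ h ∈ S, ∀ t : ℝ, P.map (fun φ => φ + t • h) ≪ P) →
      (∀ x : C(M, ℝ) → ℕ → ℝ, (∀ φ, IsUnfolded D μ φ (x φ)) →
        ∀ (N : ℕ) (p : Fin N → ℕ), Function.Injective p → (∀ l, ∃ φ, 0 < x φ (p l)) →
        (∀ f : C(UnitAddTorus (Fin N), ℂ),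
          Tendsto (fun t : ℝ => ∫ φ, f (phases (fun l => x φ (p l)) t) ∂P) atTop
            (𝓝 (∫ z, f z ∂(Measure.pi fun _ => AddCircle.haarAddCircle)))) ∧
        ∀ m : ℕ, Tendsto (fun t : ℝ => ∫ φ, formFactor (fun l => x φ (p l)) t ^ m ∂P) atTop
          (𝓝 (plateau N m))) ∧
      ∀ᵐ φ ∂P, ∀ x, IsUnfolded D μ φ x → TimeStatistics x) ∧
    ∀ (B : Type) [AddCommGroup B] [Module ℝ B] [TopologicalSpace B] [IsTopologicalAddGroup B]
      [ContinuousSMul ℝ B] [BaireSpace B] (ι : B →L[ℝ] C(M, ℝ)), DenseRange ι →
      ∀ᶠ y in residual B, ∀ x, IsUnfolded D μ (ι y) x → TimeStatistics x := by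
  have hpos : ∀ {φ : C(M, ℝ)} {l : ℝ}, 0 < (area μ φ).real univ * l / (4 * Real.pi) → 0 < l := by
    intro φ l hl
    by_contra hn
    refine absurd hl (not_lt.2 ?_)
    refine div_nonpos_of_nonpos_of_nonneg ?_ (by positivity)
    exact mul_nonpos_of_nonneg_of_nonpos measureReal_nonneg (not_lt.1 hn)
  have hpi : (4 * Real.pi) ≠ 0 := by positivity
  -- a vector is resonant if a multiple is
  have hres : ∀ {N : ℕ} {k : Fin N → ℚ} {φ : C(M, ℝ)} {lam : ℕ → ℝ} {x : ℕ → ℝ} {p : Fin N → ℕ},
      (∀ j, x j = (area μ φ).real univ * lam j / (4 * Real.pi)) →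
      (fun l => x (p l)) ∈ (res k : Set (Fin N → ℝ)) →
      (fun l => (area μ φ).real univ * lam (p l)) ∈ (res k : Set (Fin N → ℝ)) := by
    intro N k φ lam x p hx h
    have h1 : (fun l => (area μ φ).real univ * lam (p l)) =
        (4 * Real.pi) • fun l => x (p l) := by
      funext l
      simp only [Pi.smul_apply, smul_eq_mul, hx]
      field_simp
    rw [h1]
    exact (res k).smul_mem _ h
  refine ⟨fun φ => ⟨(Pool.Agent.Y262.QE.tConf M μ D hD _
    (Real.continuous_exp.comp φ.continuous) fun x => Real.exp_pos _).1, ?_⟩,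
    fun N hN => pairing_one hN, pairing_le, pairing_tendsto, ?_, ?_⟩
  · obtain ⟨u, lam, h⟩ := Pool.Agent.Y264.QR.tEx M μ D hD inferInstance φ
    exact ⟨fun j => (area μ φ).real univ * lam j / (4 * Real.pi), u, lam,
      ⟨h.eig, h.mono, h.orth, h.total⟩, fun j => rfl⟩
  · intro _ _ P _ S hS hP
    obtain ⟨-, g2⟩ := Pool.Agent.H23.RM.rtop μ D hD hiso P S hS hP
    constructor
    · intro x hx N p hp hpl
      obtain ⟨g, hg, hgl, hg0⟩ := Pool.Agent.H23.RM.lev_cont μ D hD
      have hxg : ∀ φ j, x φ j = g j φ / (4 * Real.pi) := by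
        intro φ j
        obtain ⟨u, lam, hu, hxl⟩ := hx φ
        rw [hxl, ← hgl φ u lam ⟨hu.eig, hu.mono, hu.orth, hu.total⟩ j]
        rfl
      have hxp : ∀ φ l, 0 < x φ (p l) := by
        intro φ l
        rcases hg0 (p l) with h | h
        · obtain ⟨ψ, hψ⟩ := hpl l
          rw [hxg, h ψ, zero_div] at hψ
          exact absurd hψ (lt_irrefl _)
        · rw [hxg]
          have := h φ
          positivity
      obtain ⟨X, hX⟩ : ∃ X : C(M, ℝ) → Fin N → ℝ, X = fun φ l => x φ (p l) := ⟨_, rfl⟩
      have hXc : Continuous X := by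
        rw [hX]
        refine continuous_pi fun l => ?_
        simp only [hxg]
        exact (hg _).div_const _
      have hac : ∀ S : Set (Fin N → ℝ), volume S = 0 → ∀ᵐ φ ∂P, X φ ∉ S := by
        intro S hS
        have hS' : volume ((fun y : Fin N → ℝ => (4 * Real.pi)⁻¹ • y) ⁻¹' S) = 0 := by
          rw [Measure.addHaar_preimage_smul volume (inv_ne_zero hpi), hS, mul_zero]
        filter_upwards [g2 N _ hS'] with φ h hmem
        obtain ⟨u, lam, hu, hxl⟩ := hx φ
        refine h u lam ⟨hu.eig, hu.mono, hu.orth, hu.total⟩ p hp (fun l => ?_) ?_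
        · have h2 := hxp φ l
          rw [hxl] at h2
          exact hpos h2
        · rw [mem_preimage]
          convert hmem using 1
          rw [hX]
          funext l
          simp only [Pi.smul_apply, smul_eq_mul, hxl, area]
          rw [inv_mul_eq_div]
      have hm : ∀ t : ℝ, Measurable fun φ : C(M, ℝ) => (fun l => t * X φ l : Fin N → ℝ) := by
        intro t
        refine Continuous.measurable (continuous_pi fun l => ?_)
        exact continuous_const.mul ((continuous_apply l).comp hXc)
      have hν : ∀ t : ℝ, IsProbabilityMeasure (P.map fun φ => (fun l => t * X φ l : Fin N → ℝ)) :=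
        fun t => Measure.isProbabilityMeasure_map (hm t).aemeasurable
      have h0 : ∀ k : Fin N → ℤ, k ≠ 0 → Tendsto (fun t : ℝ => ∫ y, ph (∑ j, (k j : ℝ) * y j)
          ∂(P.map fun φ => (fun l => t * X φ l : Fin N → ℝ))) atTop (𝓝 0) := by
        intro k hk
        refine (ensemble hXc.measurable hac k hk).congr fun t => ?_
        rw [integral_map (hm t).aemeasurable]
        exact (ph_cont.comp (by fun_prop)).aestronglyMeasurable
      constructor
      · intro f
        refine (torus hν h0 f).congr fun t => ?_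
        rw [integral_map (hm t).aemeasurable, hX]
        · rfl
        · refine (f.continuous.comp (continuous_pi fun j => ?_)).aestronglyMeasurable
          exact (AddCircle.continuous_mk' 1).comp (continuous_apply j)
      · intro m
        refine (moments hν h0 m).congr fun t => ?_
        rw [integral_map (hm t).aemeasurable, hX]
        · rfl
        · refine Continuous.aestronglyMeasurable ?_
          refine Continuous.pow (Continuous.div_const (Continuous.pow (Continuous.norm ?_) 2) _) m
          exact continuous_finsetSum _ fun l _ => ph_cont.comp (continuous_apply l)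
    · have h5 : ∀ᵐ φ ∂P, ∀ N : ℕ, ∀ k : Fin N → ℚ, k ≠ 0 → ∀ x, IsUnfolded D μ φ x →
          ∀ p : Fin N → ℕ, Function.Injective p → (∀ l, 0 < x (p l)) →
          (fun l => x (p l)) ∉ (res k : Set (Fin N → ℝ)) := by
        rw [ae_all_iff]
        intro N
        rw [ae_all_iff]
        intro k
        by_cases hk : k = 0
        · exact Eventually.of_forall fun φ h => absurd hk h
        · filter_upwards [g2 N _ (res_null hk)] with φ h _ x hx p hp hl hmem
          obtain ⟨u, lam, hu, hxl⟩ := hx
          refine h u lam ⟨hu.eig, hu.mono, hu.orth, hu.total⟩ p hp (fun l => ?_) (hres hxl hmem)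
          have h2 := hl l
          rw [hxl] at h2
          exact hpos h2
      filter_upwards [h5] with φ h x hx
      exact timeStatistics_of fun N k hk p hp hl => h N k hk x hx p hp hl
  · intro B _ _ _ _ _ _ ι hι
    obtain ⟨-, g2⟩ := Pool.Agent.Q233.GLV.ptop2 μ D hD hiso B ι hι
    have h5 : ∀ᶠ y in residual B, ∀ N : ℕ, ∀ k : Fin N → ℚ, k ≠ 0 → ∀ x, IsUnfolded D μ (ι y) x →
        ∀ p : Fin N → ℕ, Function.Injective p → (∀ l, 0 < x (p l)) →
        (fun l => x (p l)) ∉ (res k : Set (Fin N → ℝ)) := by
      rw [eventually_countable_forall]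
      intro N
      rw [eventually_countable_forall]
      intro k
      by_cases hk : k = 0
      · exact Eventually.of_forall fun φ h => absurd hk h
      · filter_upwards [g2 N _ (res_meagre hk)] with y h _ x hx p hp hl hmem
        obtain ⟨u, lam, hu, hxl⟩ := hx
        refine h u lam ⟨hu.eig, hu.mono, hu.orth, hu.total⟩ p hp (fun l => ?_) (hres hxl hmem)
        have h2 := hl l
        rw [hxl] at h2
        exact hpos h2
    filter_upwards [h5] with y h x hx
    exact timeStatistics_of fun N k hk p hp hl => h N k hk x hx p hp hl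

end Pool.Agent.Results.MP_a825e8_mp.FormFactor
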